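import Pool.Agent.Y998.CN.All

/-!
# Nearest neighbour stirring in every dimension: the number of cycles and the typical cycle length

For nearest neighbour random stirring on the torus `(ℤ / L)^d`, any `d ≥ 1`, at time `t ≤ L²`, the
mean number of cycles is `L^d t^(-d/2)` up to a power of `log t`, with exponential tails, and the
cycle of any point has at most `K` points with probability at most
`C K t^(-d/2) (log t)^(1 + d/2)`: typical cycles have at least `t^(d/2)` points up to a power of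
`log t`.
-/

set_option autoImplicit false

namespace Pool.Agent.Results.MP_6c3d62_pr.CycleNumber

open Finset Equiv
open Pool.Agent.Y998.ST

/-- The number of cycles of `g`, fixed points included. -/
noncomputable def numCycles {V : Type} (g : Perm V) : ℕ :=
  Nat.card (Quotient (Perm.SameCycle.setoid g))

/-- Nearest neighbour random stirring on the torus `(ℤ / L)^d`, `d ≥ 1` arbitrary, started at the
identity, at a time `2 ≤ t ≤ L²`. With constants `C, c > 0` depending only on `d`: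

* `E[2 ^ (number of cycles)] ≤ exp (C L^d t^(-d/2) (log t)^(1 + d/2))`;
* `c L^d t^(-d/2) ≤ E[number of cycles] ≤ C L^d t^(-d/2) (log t)^(1 + d/2)`;
* the cycle of any given point has at most `K` points with probability at most
  `C K t^(-d/2) (log t)^(1 + d/2)`, for every `K`. -/
theorem result (d : ℕ) (hd : 1 ≤ d) : ∃ C : ℝ, 0 < C ∧ ∃ c : ℝ, 0 < c ∧
    ∀ (L : ℕ) [NeZero L], 3 ≤ L → ∀ t : ℝ, 2 ≤ t → t ≤ (L : ℝ) ^ 2 →
      stirExp (nnRate d L) t (fun g => 2 ^ numCycles g) ≤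
        Real.exp (C * (L : ℝ) ^ d * (t ^ (-((d : ℝ) / 2)) * Real.log t ^ (1 + (d : ℝ) / 2))) ∧
      stirExp (nnRate d L) t (fun g => (numCycles g : ℝ)) ≤
        C * (L : ℝ) ^ d * (t ^ (-((d : ℝ) / 2)) * Real.log t ^ (1 + (d : ℝ) / 2)) ∧
      c * (L : ℝ) ^ d * t ^ (-((d : ℝ) / 2)) ≤
        stirExp (nnRate d L) t (fun g => (numCycles g : ℝ)) ∧
      ∀ (v : Fin d → ZMod L) (K : ℕ),
        stirExp (nnRate d L) t (fun g => if cycleLen g v ≤ K then 1 else 0) ≤
          C * K * (t ^ (-((d : ℝ) / 2)) * Real.log t ^ (1 + (d : ℝ) / 2)) := by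
  obtain ⟨C1, hC1, h1⟩ := Pool.Agent.Y998.CN.bound_q d 2 hd (by norm_num)
  obtain ⟨C2, hC2, h2⟩ := Pool.Agent.Y998.CN.bound_cycles d hd 1 one_pos
  refine ⟨C1 + C2, by positivity, (Real.exp (-10) / 2) ^ d, by positivity, ?_⟩
  intro L _ hL t ht htL
  have ht0 : 0 ≤ t := by linarith
  have hLd : (0 : ℝ) < (L : ℝ) ^ d := by
    have : (0 : ℝ) < L := by exact_mod_cast Nat.pos_of_ne_zero (NeZero.ne L)
    positivity
  have hρ : 0 < t ^ (-((d : ℝ) / 2)) * Real.log t ^ (1 + (d : ℝ) / 2) :=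
    Pool.Agent.Y998.CN.rho_pos d ht
  have hJ0 : ∀ x y, 0 ≤ nnRate d L x y := nn_nonneg
  have e1 := h1 L (Fin d → ZMod L) (Pool.Agent.Y998.CN.phi d L) (nnRate d L) hJ0
    Pool.Agent.Y998.CN.nn_adj t ht htL
  have e2 := h2 L (Fin d → ZMod L) (Pool.Agent.Y998.CN.phi d L) (nnRate d L) hJ0
    Pool.Agent.Y998.CN.nn_adj t ht htL
  have hW1 : Pool.Agent.Y998.CN.WW (nnRate d L) t 1 = 1 := by
    unfold Pool.Agent.Y998.CN.WW
    simp only [one_pow, mul_one]
    exact Pool.Agent.Y998.CN.law_sum _ _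
  have hN1 : Pool.Agent.Y998.CN.WN (nnRate d L) t 1 =
      stirExp (nnRate d L) t (fun g => (numCycles g : ℝ)) := by
    unfold Pool.Agent.Y998.CN.WN stirExp
    simp only [one_pow, mul_one]
    rfl
  have hT := Pool.Agent.Y664.CN.t_TR (Fin d → ZMod L) (nnRate d L) 2 t
  have hT2 : stirExp (nnRate d L) t (fun g => 2 ^ numCycles g) =
      Pool.Agent.Y998.CN.Zf 2 (nnRate d L) t := by
    rw [← hT]
    unfold stirExp
    push_cast
    rfl
  rw [hW1, mul_one, hN1] at e2
  have hr : Pool.Agent.Y998.CN.rho d t = t ^ (-((d : ℝ) / 2)) * Real.log t ^ (1 + (d : ℝ) / 2) := rfl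
  rw [hr] at e1 e2
  obtain ⟨R, hR⟩ : ∃ R : ℝ, R = t ^ (-((d : ℝ) / 2)) * Real.log t ^ (1 + (d : ℝ) / 2) := ⟨_, rfl⟩
  rw [← hR] at e1 e2 hρ ⊢
  have hLR : 0 < (L : ℝ) ^ d * R := mul_pos hLd hρ
  refine ⟨?_, ?_, Pool.Agent.Y998.CN.num_ge hL ht htL, fun v K => ?_⟩
  · rw [hT2]
    refine e1.trans (Real.exp_le_exp.2 ?_)
    nlinarith
  · refine e2.trans ?_
    nlinarith
  · have h3 := Pool.Agent.Y998.CN.all_alike (J := nnRate d L)
      (fun v w => Pool.Agent.Y998.CN.trans_torus _ Pool.Agent.Y998.CN.nn_trans v w) t 1 K v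
    have h4 := Pool.Agent.Y998.CN.short_w hJ0 ht0 one_pos (θ := 1) K
    rw [hN1] at h4
    have h5 : ∑ g, stirLaw (nnRate d L) t g * 1 ^ Pool.Agent.Y998.CN.numCycles g *
        (if cycleLen g v ≤ K then 1 else 0) =
        stirExp (nnRate d L) t (fun g => if cycleLen g v ≤ K then 1 else 0) := by
      unfold stirExp
      simp only [one_pow, mul_one]
    rw [h5] at h3
    have hc : (Fintype.card (Fin d → ZMod L) : ℝ) = (L : ℝ) ^ d := by
      rw [Fintype.card_fun, ZMod.card, Fintype.card_fin]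
      push_cast
      rfl
    rw [hc] at h3
    have h6 : (L : ℝ) ^ d * stirExp (nnRate d L) t (fun g => if cycleLen g v ≤ K then 1 else 0) ≤
        (L : ℝ) ^ d * ((C1 + C2) * K * R) := by
      rw [h3]
      refine h4.trans ?_
      have hK : (0 : ℝ) ≤ K := by positivity
      calc (K : ℝ) * stirExp (nnRate d L) t (fun g => (numCycles g : ℝ))
          ≤ K * (C2 * (L : ℝ) ^ d * R) := mul_le_mul_of_nonneg_left e2 hK
        _ ≤ K * ((C1 + C2) * (L : ℝ) ^ d * R) := by
            refine mul_le_mul_of_nonneg_left ?_ hK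
            nlinarith
        _ = _ := by ring
    exact le_of_mul_le_mul_left h6 hLd

end Pool.Agent.Results.MP_6c3d62_pr.CycleNumber
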