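import Pool.Agent.Y243.ST.Torus

set_option autoImplicit false

namespace Pool.Agent.Results.MP_6c3d62_pr.LongRangeTransition

open Finset Equiv MeasureTheory Filter Topology

/-- The sum over all unordered pairs of the rates. -/
noncomputable def totalRate {V : Type} [Fintype V] (J : V → V → ℝ) : ℝ := ∑ x, ∑ y, J x y / 2

/-- The probability that random stirring started at the identity, with an independent Poisson clock
of rate `J x y` for every unordered pair `{x, y}` (`J` symmetric), is at the permutation `g` at time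
`t`: there are `n` rings up to time `t` with probability `exp (-R t) (R t)^n / n!`, `R` the total
rate, and each ring is a ring of the ordered pair `(x, y)` with probability `J x y / (2 R)`. -/
noncomputable def stirLaw {V : Type} [Fintype V] [DecidableEq V] (J : V → V → ℝ) (t : ℝ)
    (g : Perm V) : ℝ :=
  ∑' n : ℕ, Real.exp (-(t * totalRate J)) * t ^ n / (n.factorial : ℝ) *
    ∑ w : Fin n → V × V, (∏ i, J (w i).1 (w i).2 / 2) *
      (if (List.ofFn fun i => swap (w i).1 (w i).2).prod = g then 1 else 0)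

/-- The expectation of `F` under random stirring at time `t`. -/
noncomputable def stirExp {V : Type} [Fintype V] [DecidableEq V] (J : V → V → ℝ) (t : ℝ)
    (F : Perm V → ℝ) : ℝ := ∑ g, stirLaw J t g * F g

/-- Length of the cycle of `g` through `v`. -/
noncomputable def cycleLen {V : Type} [Fintype V] (g : Perm V) (v : V) : ℕ :=
  Nat.card {w : V // g.SameCycle v w}

/-- The `i`-th largest cycle length (`i = 0` for the largest) divided by the number of points, and
`0` if there are at most `i` cycles. -/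
noncomputable def cycleFrac {V : Type} [Fintype V] [DecidableEq V] (g : Perm V) (i : ℕ) : ℝ :=
  sSup {x : ℝ | i + 1 ≤ Multiset.card
    (Multiset.filter (fun c : ℕ => x ≤ (c : ℝ) / Fintype.card V) g.partition.parts)}

/-- The probability that the `i`-th largest cycle length is at least `ε` times the number of
points. -/
noncomputable def bigProb {V : Type} [Fintype V] [DecidableEq V] (J : V → V → ℝ) (t : ℝ) (i : ℕ)
    (ε : ℝ) : ℝ := open Classical in stirExp J t (fun g => if ε ≤ cycleFrac g i then 1 else 0)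

/-- The mean of `f (ξ 0, ..., ξ (m - 1))` for the Poisson-Dirichlet(1) random sequence
`ξ 0 ≥ ξ 1 ≥ ...`, the ordered stick breaking sequence. -/
noncomputable def pdMean {m : ℕ} (f : (Fin m → ℝ) → ℝ) : ℝ :=
  ∫ U, f (fun i : Fin m => sSup {x : ℝ | (((i : ℕ) + 1 : ℕ) : ℕ∞) ≤
        Set.encard {j : ℕ | x ≤ (U j : ℝ) * ∏ l ∈ Finset.range j, (1 - (U l : ℝ))}})
    ∂(Measure.infinitePi (fun _ : ℕ => (volume : Measure unitInterval)))

/-- Sup-distance on the torus `(ℤ / L)^d`. -/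
def torusDist {d L : ℕ} (x y : Fin d → ZMod L) : ℕ :=
  univ.sup fun a => (x a - y a).valMinAbs.natAbs

/-- Symmetric rates that are at least `lam * distance ^ (-(d + σ))`; otherwise arbitrary. -/
def Rates (d L : ℕ) (σ lam : ℝ) (J : (Fin d → ZMod L) → (Fin d → ZMod L) → ℝ) : Prop :=
  (∀ x y, J x y = J y x) ∧ (∀ x, J x x = 0) ∧
    ∀ x y, x ≠ y → lam * (torusDist x y : ℝ) ^ (-((d : ℝ) + σ)) ≤ J x y

/-- `x` and `y` are nearest neighbours on the torus. -/
def Nbr {d L : ℕ} (x y : Fin d → ZMod L) : Prop :=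
  ∃ a, y = Function.update x a (x a + 1) ∨ x = Function.update y a (y a + 1)

/-- The nearest neighbour rates `1` plus the long range part `δ * distance ^ (-(d + σ))`. -/
noncomputable def perturbed (d L : ℕ) (σ δ : ℝ) (x y : Fin d → ZMod L) : ℝ :=
  open Classical in if x = y then 0 else
    (if Nbr x y then 1 else 0) + δ * (torusDist x y : ℝ) ^ (-((d : ℝ) + σ))

section bridge

variable {V : Type} [Fintype V] [DecidableEq V]

theorem len_eq (g : Perm V) (v : V) : Pool.Agent.W805.LR.len g v = (cycleLen g v : ℝ) := by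
  classical
  unfold Pool.Agent.W805.LR.len cycleLen
  rw [Pool.Agent.W805.LR.cnt_eq, Nat.card_eq_fintype_card, Fintype.card_subtype, Finset.sum_boole]

theorem frac_eq (g : Perm V) (i : ℕ) :
    cycleFrac g i = Pool.Agent.TH268.PD.top (Pool.Agent.TH268.PD.frac g) i := by
  unfold cycleFrac Pool.Agent.TH268.PD.top
  congr 1
  ext x
  rw [Set.mem_ofPred_eq, Set.mem_ofPred_eq, Pool.Agent.TH268.PD.card_cyc g x]

theorem pd_eq {m : ℕ} (f : (Fin m → ℝ) → ℝ) : pdMean f = Pool.Agent.TH268.PD.pdm f := rfl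

theorem law_eq (J : V → V → ℝ) (t : ℝ) (g : Perm V) :
    stirLaw J t g = Pool.Agent.TH268.PD.law J t g := by
  have hlaw : stirLaw J t g = Real.exp (-(t * totalRate J)) *
      Pool.Agent.W805.LR.stirMass J t g := Pool.Agent.W805.LR.series_eq J t g
  have hsum : ∑ g, Pool.Agent.W805.LR.stirMass J t g = Real.exp (t * totalRate J) :=
    Pool.Agent.W805.LR.sum_mass J t
  unfold Pool.Agent.TH268.PD.law
  rw [hsum, hlaw, Real.exp_neg, div_eq_inv_mul]

theorem stir_eq (J : V → V → ℝ) (t : ℝ) (F : Perm V → ℝ) :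
    stirExp J t F = ∑ g, Pool.Agent.TH268.PD.law J t g * F g := by
  unfold stirExp
  simp only [law_eq]

/-- the mean length of the cycle of a point at small times -/
theorem small_len (J : V → V → ℝ) (hJ : ∀ x y, 0 ≤ J x y) (hs : ∀ x y, J x y = J y x) (r t : ℝ)
    (hr : ∀ x, ∑ y, J x y ≤ r) (hr0 : 0 ≤ r) (ht : 0 ≤ t) (htr : t * r < 1) (x : V) :
    stirExp J t (fun g => (cycleLen g x : ℝ)) ≤ 1 / (1 - t * r) := by
  have h1 := Pool.Agent.Y243.ST.len_small J hJ hs r t hr hr0 ht htr x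
  have hZ : 0 < ∑ h, Pool.Agent.W805.LR.stirMass J t h := by
    rw [Pool.Agent.W805.LR.sum_mass]; exact Real.exp_pos _
  rw [stir_eq]
  unfold Pool.Agent.TH268.PD.law
  simp only [div_mul_eq_mul_div, ← len_eq]
  rw [← Finset.sum_div, div_le_iff₀ hZ]
  exact h1

/-- no large cycle at small times -/
theorem small_big (J : V → V → ℝ) (hJ : ∀ x y, 0 ≤ J x y) (hs : ∀ x y, J x y = J y x) (r t : ℝ)
    (hr : ∀ x, ∑ y, J x y ≤ r) (hr0 : 0 ≤ r) (ht : 0 ≤ t) (htr : t * r < 1) (ε : ℝ) (hε : 0 < ε)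
    (hV : 0 < (Fintype.card V : ℝ)) :
    bigProb J t 0 ε ≤ 1 / (ε ^ 2 * Fintype.card V * (1 - t * r)) := by
  classical
  have h0 : 0 < 1 - t * r := by linarith
  have hprob := Pool.Agent.TH268.PD.law_prob J t ht hJ
  have h1 : bigProb J t 0 ε * (ε * Fintype.card V) ^ 2 ≤
      ∑ x, stirExp J t (fun g => (cycleLen g x : ℝ)) := by
    unfold bigProb
    simp only [stir_eq]
    rw [Finset.sum_comm, Finset.sum_mul]
    refine Finset.sum_le_sum fun g _ => ?_
    rw [← Finset.mul_sum, mul_assoc]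
    refine mul_le_mul_of_nonneg_left ?_ (hprob.1 g)
    simp only [← len_eq]
    have h3 : 0 ≤ ∑ x, Pool.Agent.W805.LR.len g x :=
      Finset.sum_nonneg fun x _ => le_trans zero_le_one (Pool.Agent.W805.LR.one_le_len g x)
    split_ifs with h
    · rw [one_mul]
      rw [frac_eq] at h
      exact Pool.Agent.Y243.ST.sum_len_of_top g ε hε hV h
    · rw [zero_mul]; exact h3
  have h2 : ∑ x, stirExp J t (fun g => (cycleLen g x : ℝ)) ≤
      Fintype.card V * (1 / (1 - t * r)) := by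
    refine (Finset.sum_le_sum fun x _ => small_len J hJ hs r t hr hr0 ht htr x).trans ?_
    rw [Finset.sum_const, Finset.card_univ, nsmul_eq_mul]
  have h3 := h1.trans h2
  rw [le_div_iff₀ (by positivity)]
  have h4 : bigProb J t 0 ε * (ε ^ 2 * Fintype.card V * (1 - t * r)) * Fintype.card V =
      bigProb J t 0 ε * (ε * Fintype.card V) ^ 2 * (1 - t * r) := by ring
  have h5 : bigProb J t 0 ε * (ε * Fintype.card V) ^ 2 * (1 - t * r) ≤ Fintype.card V := by
    have h6 := mul_le_mul_of_nonneg_right h3 h0.le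
    rw [mul_assoc (Fintype.card V : ℝ), one_div, inv_mul_cancel₀ h0.ne', mul_one] at h6
    exact h6
  rw [← h4] at h5
  have h6 : bigProb J t 0 ε * (ε ^ 2 * Fintype.card V * (1 - t * r)) * Fintype.card V ≤
      1 * Fintype.card V := by rw [one_mul]; exact h5
  exact le_of_mul_le_mul_right h6 hV

end bridge

theorem rates_is {d L : ℕ} [NeZero L] {σ lam : ℝ} (hσ : 0 < σ) (hlam : 0 < lam)
    {J : (Fin d → ZMod L) → (Fin d → ZMod L) → ℝ} (h : Rates d L σ lam J) :
    Pool.Agent.W805.LR.IsRate2 d L σ lam J :=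
  Pool.Agent.W805.LR.isRate2_of_tdist hσ hlam h.1 h.2.1 h.2.2

/-- large cycles of every rank -/
theorem large_rank (d : ℕ) (σ lam : ℝ) (hd : 1 ≤ d) (hσ : 0 < σ) (hσd : σ < d) (hlam : 0 < lam) :
    ∃ t₁ : ℝ, 0 < t₁ ∧ ∀ i : ℕ, ∃ ε : ℝ, 0 < ε ∧ ∃ c : ℝ, 0 < c ∧ ∀ t : ℝ, t₁ ≤ t →
      ∃ L₀ : ℕ, ∀ (L : ℕ) [NeZero L], L₀ ≤ L →
        ∀ J : (Fin d → ZMod L) → (Fin d → ZMod L) → ℝ, Rates d L σ lam J →
          c ≤ bigProb J t i ε := by
  classical
  obtain ⟨t₁, ht₁, H⟩ := Pool.Agent.W805.LR.many_main d σ lam 1 hd hσ hσd hlam one_pos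
  refine ⟨t₁, ht₁, fun i => ?_⟩
  obtain ⟨ε, hε, c, hc, Hi⟩ := H i
  refine ⟨ε, hε, c, hc, fun t ht => ?_⟩
  obtain ⟨L₀, hL₀⟩ := Hi t ht
  refine ⟨L₀, fun L _ hL J hJ => ?_⟩
  have h1 := hL₀ L hL J (rates_is hσ hlam hJ)
  simp only [one_pow, mul_one] at h1
  have hnn : ∀ x y, 0 ≤ J x y :=
    Pool.Agent.W805.LR.IsRate2.nonneg (σ := σ) hlam (rates_is hσ hlam hJ)
  have hm : ∀ g, 0 ≤ Pool.Agent.W805.LR.stirMass J t g :=
    Pool.Agent.W29.LR.CV.stirMass_nonneg J hnn t (ht₁.le.trans ht)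
  have hZ : 0 < ∑ h, Pool.Agent.W805.LR.stirMass J t h := by
    rw [Pool.Agent.W805.LR.sum_mass]; exact Real.exp_pos _
  have hLpos : (0 : ℝ) < L := by exact_mod_cast Nat.pos_of_ne_zero (NeZero.ne L)
  have hcard := Pool.Agent.W805.LR.card_torus d L
  have hN : (0 : ℝ) < (Fintype.card (Fin d → ZMod L) : ℝ) := by rw [hcard]; positivity
  unfold bigProb
  rw [stir_eq]
  unfold Pool.Agent.TH268.PD.law
  simp only [div_mul_eq_mul_div]
  rw [← Finset.sum_div, le_div_iff₀ hZ]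
  refine h1.trans (Finset.sum_le_sum fun g _ => mul_le_mul_of_nonneg_left ?_ (hm g))
  by_cases h : Pool.Agent.W805.LR.manyCyc g (i + 1) (ε * (L : ℝ) ^ d)
  · rw [if_pos h, if_pos]
    rw [frac_eq]
    exact Pool.Agent.Y243.ST.top_of_many g i ε hN (by rw [hcard]; exact h)
  · rw [if_neg h]; split_ifs <;> norm_num

/-- the Poisson-Dirichlet law at large times -/
theorem large_pd (d : ℕ) (σ lam : ℝ) (hd : 1 ≤ d) (hσ : 0 < σ) (hσd : σ < d) (hlam : 0 < lam)
    (m : ℕ) (f : (Fin m → ℝ) → ℝ) (hfc : Continuous f) (hfb : ∃ C, ∀ u, |f u| ≤ C) (η : ℝ)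
    (hη : 0 < η) :
    ∃ t₁ : ℝ, 0 < t₁ ∧ ∀ t : ℝ, t₁ ≤ t → ∃ L₀ : ℕ, ∀ (L : ℕ) [NeZero L], L₀ ≤ L →
      ∀ J : (Fin d → ZMod L) → (Fin d → ZMod L) → ℝ, Rates d L σ lam J →
        |stirExp J t (fun g => f (fun i => cycleFrac g i)) - pdMean f| ≤ η := by
  obtain ⟨C, hC⟩ := hfb
  obtain ⟨t₁, ht₁, H⟩ := Pool.Agent.TH268.PD.stir_large m f hfc C hC η hη d σ lam hd hσ hσd hlam
  refine ⟨t₁, ht₁, fun t ht => ?_⟩
  obtain ⟨L₀, hL₀⟩ := H t ht
  refine ⟨L₀, fun L _ hL J hJ => ?_⟩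
  simp only [stir_eq, frac_eq, pd_eq]
  exact hL₀ L hL J (rates_is hσ hlam hJ)

/-- the mass of the large cycles tends to one -/
theorem large_mass (d : ℕ) (σ lam : ℝ) (hd : 1 ≤ d) (hσ : 0 < σ) (hσd : σ < d) (hlam : 0 < lam)
    (η : ℝ) (hη : 0 < η) :
    ∃ k : ℕ, ∃ t₁ : ℝ, 0 < t₁ ∧ ∀ t : ℝ, t₁ ≤ t → ∃ L₀ : ℕ, ∀ (L : ℕ) [NeZero L], L₀ ≤ L →
      ∀ J : (Fin d → ZMod L) → (Fin d → ZMod L) → ℝ, Rates d L σ lam J →
        1 - η ≤ ∑ i ∈ range k, stirExp J t (fun g => cycleFrac g i) := by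
  obtain ⟨k, hk⟩ := exists_pow_lt_of_lt_one (show 0 < η / 2 by positivity)
    (show (1 / 2 : ℝ) < 1 by norm_num)
  obtain ⟨t₁, ht₁, H⟩ := Pool.Agent.TH268.PD.stir_large k (Pool.Agent.TH268.PD.gk k)
    (Pool.Agent.TH268.PD.gk_cont k) k (Pool.Agent.TH268.PD.gk_bdd k) (η / 2) (by positivity)
    d σ lam hd hσ hσd hlam
  refine ⟨k, t₁, ht₁, fun t ht => ?_⟩
  obtain ⟨L₀, hL₀⟩ := H t ht
  refine ⟨L₀, fun L _ hL J hJ => ?_⟩
  have h1 := hL₀ L hL J (rates_is hσ hlam hJ)
  have hne : Nonempty (Fin d → ZMod L) := ⟨fun _ => 0⟩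
  have hpd : Pool.Agent.TH268.PD.pdm (Pool.Agent.TH268.PD.gk k) =
      Pool.Agent.TH268.PD.Lim.I (Pool.Agent.TH268.PD.Lim.Sm k) := by
    have h2 := Pool.Agent.TH268.PD.pd_sum k 1 zero_le_one le_rfl
    rw [one_mul] at h2
    rw [← h2]
    unfold Pool.Agent.TH268.PD.gk
    simp only [one_mul]
  have hgk : ∑ g, Pool.Agent.TH268.PD.law J t g * Pool.Agent.TH268.PD.gk k
      (fun i => Pool.Agent.TH268.PD.top (Pool.Agent.TH268.PD.frac g) i) =
      ∑ i ∈ range k, ∑ g, Pool.Agent.TH268.PD.law J t g *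
        Pool.Agent.TH268.PD.top (Pool.Agent.TH268.PD.frac g) i := by
    rw [Finset.sum_comm]
    refine Finset.sum_congr rfl fun g _ => ?_
    rw [← Finset.mul_sum]
    congr 1
    unfold Pool.Agent.TH268.PD.gk
    rw [← Fin.sum_univ_eq_sum_range
      (fun i => Pool.Agent.TH268.PD.top (Pool.Agent.TH268.PD.frac g) i)]
    refine Finset.sum_congr rfl fun i _ => ?_
    obtain ⟨h1, h2⟩ := Pool.Agent.TH268.PD.top_mem g i
    rw [max_eq_left h1, min_eq_left h2]
  rw [hpd, hgk] at h1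
  simp only [stir_eq, frac_eq]
  have h3 := Pool.Agent.TH268.PD.Lim.S_lower k
  have h4 := (abs_le.1 h1).1
  linarith

theorem perturbed_rates (d L : ℕ) [NeZero L] (σ δ : ℝ) : Rates d L σ δ (perturbed d L σ δ) := by
  classical
  have hsymd : ∀ x y : Fin d → ZMod L, torusDist x y = torusDist y x := by
    intro x y
    unfold torusDist
    refine Finset.sup_congr rfl fun a _ => ?_
    rw [← neg_sub, ZMod.natAbs_valMinAbs_neg]
  have hsymn : ∀ x y : Fin d → ZMod L, Nbr x y ↔ Nbr y x := fun x y =>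
    ⟨fun ⟨a, h⟩ => ⟨a, h.symm⟩, fun ⟨a, h⟩ => ⟨a, h.symm⟩⟩
  refine ⟨fun x y => ?_, fun x => ?_, fun x y hxy => ?_⟩
  · unfold perturbed
    simp only [hsymd x y, hsymn x y, eq_comm (a := x) (b := y)]
  · unfold perturbed; rw [if_pos rfl]
  · unfold perturbed
    rw [if_neg hxy]
    have : (0 : ℝ) ≤ (if Nbr x y then 1 else 0) := by split_ifs <;> norm_num
    linarith

theorem perturbed_rows (d L : ℕ) [NeZero L] (σ δ : ℝ) (hσ : 0 < σ) (hδ : 0 ≤ δ)
    (x : Fin d → ZMod L) :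
    ∑ y, perturbed d L σ δ x y ≤ 2 * d + δ * (4 ^ d / (1 - (2 : ℝ) ^ (-σ))) := by
  classical
  have h1 : ∀ y, perturbed d L σ δ x y ≤
      ∑ a, ((if y = Function.update x a (x a + 1) then (1 : ℝ) else 0) +
        (if y = Function.update x a (x a - 1) then 1 else 0)) +
      δ * (if x = y then 0 else (Pool.Agent.W805.LR.tdist x y : ℝ) ^ (-((d : ℝ) + σ))) := by
    intro y
    have hnn : ∀ a ∈ (univ : Finset (Fin d)), (0 : ℝ) ≤
        ((if y = Function.update x a (x a + 1) then (1 : ℝ) else 0) +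
        (if y = Function.update x a (x a - 1) then 1 else 0)) := by
      intro a _
      split_ifs <;> norm_num
    unfold perturbed
    by_cases hxy : x = y
    · rw [if_pos hxy, if_pos hxy, mul_zero, add_zero]
      exact Finset.sum_nonneg hnn
    · rw [if_neg hxy, if_neg hxy]
      refine add_le_add ?_ le_rfl
      by_cases hn : Nbr x y
      · rw [if_pos hn]
        obtain ⟨a, ha⟩ := hn
        refine le_trans ?_ (Finset.single_le_sum hnn (Finset.mem_univ a))
        rcases ha with ha | ha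
        · rw [if_pos ha]
          split_ifs <;> norm_num
        · have h2 : y = Function.update x a (x a - 1) := by
            rw [ha]
            funext b
            by_cases hb : b = a
            · subst hb; simp
            · simp [Function.update_of_ne hb]
          rw [if_pos h2]
          split_ifs <;> norm_num
      · rw [if_neg hn]
        exact Finset.sum_nonneg hnn
  refine (Finset.sum_le_sum fun y _ => h1 y).trans ?_
  rw [Finset.sum_add_distrib, ← Finset.mul_sum, Finset.sum_comm]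
  refine add_le_add (le_of_eq ?_)
    (mul_le_mul_of_nonneg_left (Pool.Agent.Y243.ST.row_tail x σ hσ) hδ)
  simp only [Finset.sum_add_distrib, Finset.sum_ite_eq', Finset.mem_univ, if_true]
  simp
  ring

/-- The phase transition for random stirring (the interchange process) started at the identity, on
the torus of side `L + 1` in any dimension `d ≥ 1` (in particular `d = 2`), for symmetric rates
`J L` that are at least `δ * distance ^ (-(d + σ))`, where `0 < σ < d` and `δ > 0` is arbitrarily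
small: for instance nearest neighbour stirring with rate `1` plus such a weak long range part (last
line). Below `p i` is the `i`-th largest cycle length divided by the number of points.

(a) If the rates at every point sum to at most `r` then for all times `t < 1 / r`, all `i` and all
`ε > 0` the probability of `p i ≥ ε` tends to `0`.

(b) There is one time `t₁` such that for every `i` there are `ε > 0` and `c > 0` such that for all
`t ≥ t₁` and all large `L` the probability of `p i ≥ ε` is at least `c`.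

(c) For every `η > 0` there are `k` and `t₂` such that for all `t ≥ t₂` and all large `L` the
expectation of `p 0 + ... + p (k - 1)` is at least `1 - η`.

(d) As first `L → ∞` and then `t → ∞`, the sequence `p` converges in law to the
Poisson-Dirichlet(1) sequence, uniformly in the rates. -/
theorem result (d : ℕ) (σ δ : ℝ) (hd : 1 ≤ d) (hσ : 0 < σ) (hσd : σ < d) (hδ : 0 < δ) :
    (∀ (r : ℝ) (J : ∀ L : ℕ, (Fin d → ZMod (L + 1)) → (Fin d → ZMod (L + 1)) → ℝ),
      (∀ L, Rates d (L + 1) σ δ (J L)) → 0 < r → (∀ L x, ∑ y, J L x y ≤ r) →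
      ∀ t : ℝ, 0 ≤ t → t < 1 / r → ∀ (i : ℕ) (ε : ℝ), 0 < ε →
        Tendsto (fun L => bigProb (J L) t i ε) atTop (𝓝 0)) ∧
    (∃ t₁ : ℝ, 0 < t₁ ∧ ∀ i : ℕ, ∃ ε : ℝ, 0 < ε ∧ ∃ c : ℝ, 0 < c ∧
      ∀ J : ∀ L : ℕ, (Fin d → ZMod (L + 1)) → (Fin d → ZMod (L + 1)) → ℝ,
      (∀ L, Rates d (L + 1) σ δ (J L)) →
      ∀ t : ℝ, t₁ ≤ t → ∀ᶠ L : ℕ in atTop, c ≤ bigProb (J L) t i ε) ∧
    (∀ η : ℝ, 0 < η → ∃ k : ℕ, ∃ t₂ : ℝ, 0 < t₂ ∧
      ∀ J : ∀ L : ℕ, (Fin d → ZMod (L + 1)) → (Fin d → ZMod (L + 1)) → ℝ,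
      (∀ L, Rates d (L + 1) σ δ (J L)) →
      ∀ t : ℝ, t₂ ≤ t → ∀ᶠ L : ℕ in atTop,
        1 - η ≤ ∑ i ∈ range k, stirExp (J L) t (fun g => cycleFrac g i)) ∧
    (∀ (m : ℕ) (f : (Fin m → ℝ) → ℝ), Continuous f → (∃ C, ∀ u, |f u| ≤ C) →
      ∀ η : ℝ, 0 < η → ∃ t₂ : ℝ, 0 < t₂ ∧
      ∀ J : ∀ L : ℕ, (Fin d → ZMod (L + 1)) → (Fin d → ZMod (L + 1)) → ℝ,
      (∀ L, Rates d (L + 1) σ δ (J L)) →
      ∀ t : ℝ, t₂ ≤ t → ∀ᶠ L : ℕ in atTop,
        |stirExp (J L) t (fun g => f (fun i => cycleFrac g i)) - pdMean f| ≤ η) ∧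
    (∀ L : ℕ, Rates d (L + 1) σ δ (perturbed d (L + 1) σ δ) ∧
      ∀ x, ∑ y, perturbed d (L + 1) σ δ x y ≤ 2 * d + δ * (4 ^ d / (1 - (2 : ℝ) ^ (-σ)))) := by
  classical
  refine ⟨?_, ?_, ?_, ?_, fun L => ⟨perturbed_rates d (L + 1) σ δ,
    perturbed_rows d (L + 1) σ δ hσ hδ.le⟩⟩
  · intro r J hJ hr0 hrow t ht ht1 i ε hε
    have htr : t * r < 1 := by rwa [lt_div_iff₀ hr0] at ht1
    have h5 : 0 < 1 - t * r := by linarith
    have hnn : ∀ L x y, 0 ≤ J L x y := fun L =>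
      Pool.Agent.W805.LR.IsRate2.nonneg (σ := σ) hδ (rates_is hσ hδ (hJ L))
    have hb : ∀ L : ℕ, bigProb (J L) t i ε ≤
        (1 / (ε ^ 2 * (1 - t * r))) * (1 / ((L : ℝ) + 1)) := by
      intro L
      have hcard := Pool.Agent.W805.LR.card_torus d (L + 1)
      have hL1 : (1 : ℝ) ≤ ((L + 1 : ℕ) : ℝ) := by push_cast; linarith [L.cast_nonneg (α := ℝ)]
      have hL0 : (0 : ℝ) < ((L + 1 : ℕ) : ℝ) := by linarith
      have hN : (0 : ℝ) < (Fintype.card (Fin d → ZMod (L + 1)) : ℝ) := by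
        rw [hcard]; positivity
      have h1 := small_big (J L) (hnn L) (hJ L).1 r t (hrow L) hr0.le ht htr ε hε hN
      have h2 : bigProb (J L) t i ε ≤ bigProb (J L) t 0 ε := by
        unfold bigProb
        simp only [stir_eq]
        have hprob := Pool.Agent.TH268.PD.law_prob (J L) t ht (hnn L)
        refine Finset.sum_le_sum fun g _ => mul_le_mul_of_nonneg_left ?_ (hprob.1 g)
        have h3 : cycleFrac g i ≤ cycleFrac g 0 := by
          rw [frac_eq, frac_eq]
          exact Pool.Agent.Y243.ST.top_le_zero g i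
        by_cases h : ε ≤ cycleFrac g i
        · rw [if_pos h, if_pos (h.trans h3)]
        · rw [if_neg h]; split_ifs <;> norm_num
      refine (h2.trans h1).trans ?_
      rw [hcard]
      have h3 : ((L : ℝ) + 1) ≤ ((L + 1 : ℕ) : ℝ) ^ d := by
        have h4 : ((L + 1 : ℕ) : ℝ) ^ 1 ≤ ((L + 1 : ℕ) : ℝ) ^ d := pow_le_pow_right₀ hL1 hd
        rw [pow_one] at h4
        push_cast at h4 ⊢
        exact h4
      have h6 : (0 : ℝ) < (L : ℝ) + 1 := by positivity
      rw [one_div_mul_one_div]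
      refine one_div_le_one_div_of_le (by positivity) ?_
      have h7 : 0 ≤ ε ^ 2 * (1 - t * r) := by positivity
      have h8 := mul_le_mul_of_nonneg_left h3 h7
      linarith
    have hlim : Tendsto (fun L : ℕ => (1 / (ε ^ 2 * (1 - t * r))) * (1 / ((L : ℝ) + 1))) atTop
        (𝓝 0) := by
      have h1 := (tendsto_one_div_add_atTop_nhds_zero_nat (𝕜 := ℝ)).const_mul
        (1 / (ε ^ 2 * (1 - t * r)))
      rwa [mul_zero] at h1
    refine squeeze_zero (fun L => ?_) hb hlim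
    have hprob := Pool.Agent.TH268.PD.law_prob (J L) t ht (hnn L)
    unfold bigProb
    simp only [stir_eq]
    refine Finset.sum_nonneg fun g _ => mul_nonneg (hprob.1 g) ?_
    split_ifs <;> norm_num
  · obtain ⟨t₁, ht₁, H⟩ := large_rank d σ δ hd hσ hσd hδ
    refine ⟨t₁, ht₁, fun i => ?_⟩
    obtain ⟨ε, hε, c, hc, Hi⟩ := H i
    refine ⟨ε, hε, c, hc, fun J hJ t ht => ?_⟩
    obtain ⟨L₀, hL₀⟩ := Hi t ht
    filter_upwards [eventually_ge_atTop L₀] with L hL
    exact hL₀ (L + 1) (by omega) _ (hJ L)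
  · intro η hη
    obtain ⟨k, t₁, ht₁, H⟩ := large_mass d σ δ hd hσ hσd hδ η hη
    refine ⟨k, t₁, ht₁, fun J hJ t ht => ?_⟩
    obtain ⟨L₀, hL₀⟩ := H t ht
    filter_upwards [eventually_ge_atTop L₀] with L hL
    exact hL₀ (L + 1) (by omega) _ (hJ L)
  · intro m f hfc hfb η hη
    obtain ⟨t₁, ht₁, H⟩ := large_pd d σ δ hd hσ hσd hδ m f hfc hfb η hη
    refine ⟨t₁, ht₁, fun J hJ t ht => ?_⟩
    obtain ⟨L₀, hL₀⟩ := H t ht
    filter_upwards [eventually_ge_atTop L₀] with L hL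
    exact hL₀ (L + 1) (by omega) _ (hJ L)

end Pool.Agent.Results.MP_6c3d62_pr.LongRangeTransition
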