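import Pool.Agent.Y998.LQ.Final
import Pool.Agent.Y998.LQ.Uni
import Pool.Agent.Y804.LQ.SHORT
import Pool.Agent.Y514.LQ.TYP
import Pool.Agent.Y998.LQ.Walk
import Pool.Agent.Y220.LR.SHORT2
import Pool.Agent.Y930.LR.GAP
import Pool.Agent.Y858.LR.BAD
import Pool.Agent.Y177.LR.Comb
import Pool.Agent.Y794.LR.LONG

/-!
# Nearest neighbour stirring: the length of typical cycles

For nearest neighbour random stirring on the torus `(ℤ / L)^d` at time `t`, the cycle of a point has
at least of order `min(t^(d-1), L^d)` points if `d ≥ 2`, and of order `min(√t, L)` points if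
`d = 1`, uniformly in `L` and `t` and without logarithmic corrections. In particular typical points
are in macroscopic cycles at all times `≥ c L^(d/(d-1))`, `d ≥ 2`.
-/

set_option autoImplicit false

namespace Pool.Agent.Results.MP_6c3d62_pr.TypicalCycles

open Finset Equiv
open Pool.Agent.Y998.ST

/-- Nearest neighbour random stirring on the torus `(ℤ / L)^d`, `d ≥ 1` arbitrary, started at the
identity: with a constant `C` depending only on `d`, for every `L ≥ 3`, every time `t > 0`, every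
point `v` and every `K`, the cycle of `v` has at most `K` points with probability at most
`C (K / min(t^e, L^d))^(1/(d+3))`, where `e = max(d/2, d-1)`, that is `e = d - 1` for `d ≥ 2` and
`e = 1/2` for `d = 1`. -/
theorem result (d : ℕ) (hd : 1 ≤ d) : ∃ C : ℝ, 0 < C ∧ ∀ (L : ℕ) [NeZero L], 3 ≤ L →
    ∀ t : ℝ, 0 < t → ∀ (v : Fin d → ZMod L) (K : ℕ),
      stirExp (nnRate d L) t (fun g => if cycleLen g v ≤ K then 1 else 0) ≤
        C * ((K : ℝ) / min (t ^ max ((d : ℝ) / 2) ((d : ℝ) - 1)) ((L : ℝ) ^ d)) ^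
          (1 / ((d : ℝ) + 3)) :=
  Pool.Agent.Y998.LQ.t_uni
    (Pool.Agent.Y514.LQ.t_TYP Pool.Agent.Y804.LQ.t_SHORT Pool.Agent.Y998.LQ.t_dist)
    (Pool.Agent.Y794.LR.t_LONG
      (Pool.Agent.Y177.LR.t_COMB Pool.Agent.Y220.LR.t_SHORT2 Pool.Agent.Y930.LR.t_GAP)
      Pool.Agent.Y858.LR.t_BAD Pool.Agent.Y998.LQ.Walk.t_SHC
      (Pool.Agent.Y514.LQ.t_TYP Pool.Agent.Y804.LQ.t_SHORT Pool.Agent.Y998.LQ.t_dist)
      Pool.Agent.Y998.LQ.t_dist) d hd

end Pool.Agent.Results.MP_6c3d62_pr.TypicalCycles
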